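import Mathlib

/-!
# MP_ccf7f2_nt, Q2: the numbers `a_n = T_n / (2n(2n+1)C(2n,n))`,
`T_n = ∑_{j<n} (-27)^(n-1-j) (15j+4) C(2j,j)² C(3j,j)`

Write `n = m + 1`, `N = 2n+1 = 2m+3`, `t j = C(2j,j) C(3m+2, m+1+j)` and `U = ∑_{j ≤ m} (-1)^(m-j) t j`.

* WZ identity: `T_n = n C(2n,n) U`, so `a_n = U / (2N)`.
* `N` divides `3 Cat(j) C(3m+2, m+1+j)` for every `j ≤ m` (induction on `j`), hence `3 t j`.
* `(j+1) t (j+1) ≡ -4 (j+2) t j` modulo `N`; so, if `3 ∣ N`, `t (3i+1) ≡ t (3i)` and `t (3i+2) ≡ 0`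
  modulo `N`, and `U ≡ t m = C(2m,m) C(3m+2, m+1)` modulo `N` (here `m ≡ 0` modulo `3`).
* Kummer's theorem: for `N = 3^a q`, `a ≥ 1`, `3 ∤ q`, the number `3^a` divides `t m` if and only if `q ≠ 1`.
-/

set_option autoImplicit false

open Finset

namespace Pool.Agent.Results.MP_ccf7f2_nt.Integrality

/-- `T_n = ∑_{j<n} (-27)^(n-1-j) (15j+4) C(2j,j)² C(3j,j)` -/
def T (n : ℕ) : ℤ :=
  ∑ j ∈ range n, (-27) ^ (n - 1 - j) * (15 * (j : ℤ) + 4) * ((2 * j).choose j : ℤ) ^ 2 * ((3 * j).choose j : ℤ)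

/-- `a_n = T_n / (2n(2n+1)C(2n,n))` -/
noncomputable def a (n : ℕ) : ℚ := (T n : ℚ) / (2 * n * (2 * n + 1) * ((2 * n).choose n : ℚ))

/-! ## the WZ identity -/

/-- `t m j = C(2j,j) C(3m+2, m+1+j)` -/
def t (m j : ℕ) : ℕ := Nat.centralBinom j * (3 * m + 2).choose (m + 1 + j)

/-- `v m j = (-1)^j t m j` -/
noncomputable def v (m j : ℕ) : ℚ := (-1) ^ j * (t m j : ℚ)

lemma cb_succ (j : ℕ) : ((j : ℚ) + 1) * (Nat.centralBinom (j + 1) : ℚ)
    = 2 * (2 * j + 1) * (Nat.centralBinom j : ℚ) := by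
  have h := Nat.succ_mul_centralBinom_succ j
  exact_mod_cast h

lemma ch_nat (m j : ℕ) (hj : j ≤ m) : (3 * m + 2).choose (m + 1 + (j + 1)) * (m + 2 + j) =
    (3 * m + 2).choose (m + 1 + j) * (2 * m + 1 - j) := by
  have h := Nat.choose_succ_right_eq (3 * m + 2) (m + 1 + j)
  have e : 3 * m + 2 - (m + 1 + j) = 2 * m + 1 - j := by omega
  have e2 : m + 2 + j = m + 1 + j + 1 := by ring
  rw [e] at h
  rw [e2]
  exact h

lemma ch_j (m j : ℕ) (hj : j ≤ m) : ((3 * m + 2).choose (m + 1 + (j + 1)) : ℚ) * (m + 2 + j) =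
    ((3 * m + 2).choose (m + 1 + j) : ℚ) * (2 * m + 1 - j) := by
  have h := ch_nat m j hj
  have h' := congrArg (Nat.cast : ℕ → ℚ) h
  have e : ((2 * m + 1 - j : ℕ) : ℚ) = 2 * m + 1 - j := by
    rw [Nat.cast_sub (by omega)]; push_cast; ring
  rw [Nat.cast_mul, Nat.cast_mul, e] at h'
  push_cast at h'
  exact h'

lemma ch_m (m j : ℕ) (hj : j ≤ m + 1) : ((3 * (m + 1) + 2).choose ((m + 1) + 1 + j) : ℚ) *
      ((m + 2 + j) * (2 * m + 3 - j) * (2 * m + 2 - j)) =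
    ((3 * m + 2).choose (m + 1 + j) : ℚ) * ((3 * m + 5) * (3 * m + 4) * (3 * m + 3)) := by
  obtain ⟨c, hc⟩ : ∃ c, 2 * m + 1 = j + c := ⟨2 * m + 1 - j, by omega⟩
  have h1 : ((3 * (m + 1) + 2).choose ((m + 1) + 1 + j) : ℚ) =
      ((3 * m + 5).factorial : ℚ) / (((m + 1 + j + 1).factorial : ℚ) * ((c + 2).factorial : ℚ)) := by
    rw [Nat.cast_choose ℚ (by omega : (m + 1) + 1 + j ≤ 3 * (m + 1) + 2)]
    have e1 : 3 * (m + 1) + 2 - ((m + 1) + 1 + j) = c + 2 := by omega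
    have e2 : 3 * (m + 1) + 2 = 3 * m + 5 := by ring
    have e3 : m + 1 + 1 + j = m + 1 + j + 1 := by ring
    rw [e1, e2, e3]
  have h2 : ((3 * m + 2).choose (m + 1 + j) : ℚ) =
      ((3 * m + 2).factorial : ℚ) / (((m + 1 + j).factorial : ℚ) * (c.factorial : ℚ)) := by
    rw [Nat.cast_choose ℚ (by omega : m + 1 + j ≤ 3 * m + 2)]
    have e1 : 3 * m + 2 - (m + 1 + j) = c := by omega
    rw [e1]
  have hcq : (2 : ℚ) * m + 1 = j + c := by exact_mod_cast hc
  rw [h1, h2]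
  have f1 : ∀ x : ℕ, ((x + 1).factorial : ℚ) = (x + 1) * (x.factorial : ℚ) := by
    intro x; rw [Nat.factorial_succ]; push_cast; ring
  have e5 : 3 * m + 5 = 3 * m + 2 + 1 + 1 + 1 := by ring
  have e6 : c + 2 = c + 1 + 1 := by ring
  rw [e5, e6, f1 (3 * m + 2 + 1 + 1), f1 (3 * m + 2 + 1), f1 (3 * m + 2), f1 (c + 1), f1 c, f1 (m + 1 + j)]
  have e7 : (2 : ℚ) * m + 3 - j = c + 2 := by linarith
  have e8 : (2 : ℚ) * m + 2 - j = c + 1 := by linarith
  rw [e7, e8]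
  have q1 : ((m + 1 + j).factorial : ℚ) ≠ 0 := by positivity
  have q2 : (c.factorial : ℚ) ≠ 0 := by positivity
  have q3 : ((3 * m + 2).factorial : ℚ) ≠ 0 := by positivity
  have q4 : (m : ℚ) + 2 + j ≠ 0 := by positivity
  have q5 : (c : ℚ) + 1 ≠ 0 := by positivity
  have q6 : (c : ℚ) + 2 ≠ 0 := by positivity
  push_cast
  have e9 : (c : ℚ) + 1 + 1 = c + 2 := by ring
  have e10 : (m : ℚ) + 1 + j + 1 = m + 2 + j := by ring
  rw [e9, e10]
  field_simp
  ring

lemma v_j (m j : ℕ) (hj : j ≤ m) : v m (j + 1) * ((j + 1) * (m + 2 + j)) =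
    -2 * (2 * j + 1) * (2 * m + 1 - j) * v m j := by
  have h1 := ch_j m j hj
  have h2 := cb_succ j
  unfold v t
  push_cast
  rw [pow_succ]
  generalize ((3 * m + 2).choose (m + 1 + (j + 1)) : ℚ) = X at *
  generalize ((3 * m + 2).choose (m + 1 + j) : ℚ) = Y at *
  generalize (Nat.centralBinom (j + 1) : ℚ) = Z at *
  generalize (Nat.centralBinom j : ℚ) = W at *
  linear_combination (-(-1 : ℚ) ^ j) * ((j + 1) * Z * h1 + (2 * m + 1 - j) * Y * h2)

lemma v_m (m j : ℕ) (hj : j ≤ m + 1) : v (m + 1) j * ((m + 2 + j) * (2 * m + 3 - j) * (2 * m + 2 - j)) =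
    (3 * m + 5) * (3 * m + 4) * (3 * m + 3) * v m j := by
  have h1 := ch_m m j hj
  unfold v t
  push_cast
  generalize ((3 * (m + 1) + 2).choose ((m + 1) + 1 + j) : ℚ) = X at *
  generalize ((3 * m + 2).choose (m + 1 + j) : ℚ) = Y at *
  generalize (Nat.centralBinom j : ℚ) = W at *
  linear_combination ((-1 : ℚ) ^ j * W) * h1

/-- `K m = (m+1)C(2m+2,m+1)/27^m` -/
noncomputable def K (m : ℕ) : ℚ := (m + 1) * (Nat.centralBinom (m + 1) : ℚ) / 27 ^ m

lemma K_succ (m : ℕ) : K (m + 1) * (27 * (m + 1)) = 2 * (2 * m + 3) * K m := by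
  unfold K
  have h := cb_succ (m + 1)
  rw [pow_succ]
  push_cast at h ⊢
  generalize (Nat.centralBinom (m + 1 + 1) : ℚ) = X at *
  generalize (Nat.centralBinom (m + 1) : ℚ) = Y at *
  rw [div_mul_eq_mul_div, mul_div_assoc', div_eq_div_iff (by positivity) (by positivity)]
  linear_combination (27 * (m + 1) * (27 : ℚ) ^ m) * h

/-- the WZ mate -/
noncomputable def F (m j : ℕ) : ℚ :=
  -(j * (3 * j - 1)) / (9 * ((2 * m + 3 - j) * (2 * m + 2 - j))) * (K m * v m j)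

lemma wz_step (m j : ℕ) (hj : j ≤ m) : K (m + 1) * v (m + 1) j - K m * v m j =
    F m (j + 1) - F m j := by
  have h1 := v_j m j hj
  have h2 := v_m m j (by omega)
  have h3 := K_succ m
  have hjq : (j : ℚ) ≤ m := by exact_mod_cast hj
  have hmq : (0 : ℚ) ≤ m := Nat.cast_nonneg m
  have q1 : (m : ℚ) + 1 ≠ 0 := by positivity
  have q2 : (m : ℚ) + 2 + j ≠ 0 := by positivity
  have p3 : (2 : ℚ) * m + 3 - j ≠ 0 := by
    have : (0 : ℚ) < 2 * m + 3 - j := by linarith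
    exact this.ne'
  have p2 : (2 : ℚ) * m + 2 - j ≠ 0 := by
    have : (0 : ℚ) < 2 * m + 2 - j := by linarith
    exact this.ne'
  have p1 : (2 : ℚ) * m + 1 - j ≠ 0 := by
    have : (0 : ℚ) < 2 * m + 1 - j := by linarith
    exact this.ne'
  obtain ⟨P3, hP3⟩ : ∃ P : ℚ, P * (2 * m + 3 - j) = 1 := ⟨_, inv_mul_cancel₀ p3⟩
  obtain ⟨P2, hP2⟩ : ∃ P : ℚ, P * (2 * m + 2 - j) = 1 := ⟨_, inv_mul_cancel₀ p2⟩
  obtain ⟨P1, hP1⟩ : ∃ P : ℚ, P * (2 * m + 1 - j) = 1 := ⟨_, inv_mul_cancel₀ p1⟩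
  obtain ⟨Q, hQ⟩ : ∃ Q : ℚ, Q * (m + 2 + j) = 1 := ⟨_, inv_mul_cancel₀ q2⟩
  obtain ⟨Q1, hQ1⟩ : ∃ Q : ℚ, Q * (m + 1) = 1 := ⟨_, inv_mul_cancel₀ q1⟩
  have hF1 : F m j = -(j * (3 * j - 1)) * (P3 * P2) / 9 * (K m * v m j) := by
    unfold F
    have e : (9 : ℚ) * ((2 * m + 3 - j) * (2 * m + 2 - j)) ≠ 0 :=
      mul_ne_zero (by norm_num) (mul_ne_zero p3 p2)
    rw [div_mul_eq_mul_div, div_eq_iff e]
    linear_combination ((j * (3 * j - 1)) * (K m * v m j)) * (P2 * (2 * m + 2 - j) * hP3 + hP2)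
  have hF2 : F m (j + 1) = -((j + 1) * (3 * j + 2)) * (P2 * P1) / 9 * (K m * v m (j + 1)) := by
    unfold F
    push_cast
    have p2' : (2 : ℚ) * m + 3 - (j + 1) ≠ 0 := by
      have : (2 : ℚ) * m + 3 - (j + 1) = 2 * m + 2 - j := by ring
      rw [this]; exact p2
    have p1' : (2 : ℚ) * m + 2 - (j + 1) ≠ 0 := by
      have : (2 : ℚ) * m + 2 - (j + 1) = 2 * m + 1 - j := by ring
      rw [this]; exact p1
    have e : (9 : ℚ) * ((2 * m + 3 - (j + 1)) * (2 * m + 2 - (j + 1))) ≠ 0 :=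
      mul_ne_zero (by norm_num) (mul_ne_zero p2' p1')
    rw [div_mul_eq_mul_div, div_eq_iff e]
    linear_combination (((j + 1) * (3 * j + 2)) * (K m * v m (j + 1))) * (P1 * (2 * m + 1 - j) * hP2 + hP1)
  have e2 : (j + 1) * P1 * v m (j + 1) = -2 * (2 * j + 1) * Q * v m j := by
    linear_combination (Q * P1) * h1 - ((j + 1) * P1 * v m (j + 1)) * hQ - 2 * (2 * j + 1) * Q * v m j * hP1
  have e1 : v (m + 1) j = (3 * m + 5) * (3 * m + 4) * (3 * m + 3) * (P3 * P2 * Q) * v m j := by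
    linear_combination (P3 * P2 * Q) * h2 -
      v (m + 1) j * ((P2 * (2 * m + 2 - j)) * (Q * (m + 2 + j)) * hP3 + (Q * (m + 2 + j)) * hP2 + hQ)
  have e3 : K (m + 1) = 2 * (2 * m + 3) / 27 * Q1 * K m := by
    linear_combination (Q1 / 27) * h3 - K (m + 1) * hQ1
  have key : 2 * (2 * (m : ℚ) + 3) / 27 * ((3 * m + 5) * (3 * m + 4) * 3) * (P3 * P2 * Q) - 1 =
      2 * (3 * j + 2) * (2 * j + 1) * P2 * Q / 9 + j * (3 * j - 1) * (P3 * P2) / 9 := by
    have e4 : 2 * (2 * (m : ℚ) + 3) / 27 * ((3 * m + 5) * (3 * m + 4) * 3) -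
        (2 * m + 3 - j) * (2 * m + 2 - j) * (m + 2 + j) =
      2 * (3 * j + 2) * (2 * j + 1) * (2 * m + 3 - j) / 9 + j * (3 * j - 1) * (m + 2 + j) / 9 := by
      ring
    linear_combination (P3 * P2 * Q) * e4 +
      ((P2 * (2 * m + 2 - j)) * (Q * (m + 2 + j)) * hP3 + (Q * (m + 2 + j)) * hP2 + hQ) +
      2 * (3 * j + 2) * (2 * j + 1) / 9 * P2 * Q * hP3 + j * (3 * j - 1) / 9 * P3 * P2 * hQ
  rw [hF1, hF2, e1, e3]
  linear_combination (K m * v m j) * key +
    (2 * (2 * (m : ℚ) + 3) / 27 * ((3 * m + 5) * (3 * m + 4) * 3) * (P3 * P2 * Q)) * (K m * v m j) * hQ1 +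
    ((3 * j + 2) * P2 / 9 * K m) * e2

lemma wz_sum (m J : ℕ) (hJ : J ≤ m + 1) : ∑ j ∈ range J, (K (m + 1) * v (m + 1) j - K m * v m j) =
    F m J := by
  induction J with
  | zero => simp [F]
  | succ J ih =>
    rw [sum_range_succ, ih (by omega), wz_step m J (by omega)]
    ring

/-- the summand without the linear factor -/
noncomputable def tt (k : ℕ) : ℚ := ((2 * k).choose k : ℚ) ^ 2 * ((3 * k).choose k : ℚ) / (-27) ^ k

lemma three_choose (m : ℕ) : 3 * ((3 * m + 2).choose (m + 1 + (m + 1)) : ℚ) =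
    ((3 * (m + 1)).choose (m + 1) : ℚ) := by
  have h1 := Nat.choose_mul_succ_eq (3 * m + 2) (2 * m + 2)
  have e1 : 3 * m + 2 + 1 - (2 * m + 2) = m + 1 := by omega
  have e2 : m + 1 + (m + 1) = 2 * m + 2 := by ring
  have e3 : (3 * (m + 1)).choose (m + 1) = (3 * m + 2 + 1).choose (2 * m + 2) :=
    Nat.choose_symm_of_eq_add (by omega)
  rw [e1] at h1
  rw [e2, e3]
  have h2 := congrArg (Nat.cast : ℕ → ℚ) h1
  push_cast at h2
  have q : (m : ℚ) + 1 ≠ 0 := by positivity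
  apply mul_left_cancel₀ q
  linear_combination h2

lemma diag (m : ℕ) : K m * v m (m + 1) = 9 * (m + 1) * tt (m + 1) := by
  unfold K v t tt
  have h := three_choose m
  rw [Nat.centralBinom_eq_two_mul_choose, ← h]
  have e : (-27 : ℚ) ^ (m + 1) = (-1) ^ (m + 1) * 27 ^ (m + 1) := by
    rw [← mul_pow]; norm_num
  have e1 : ((-1 : ℚ) ^ (m + 1)) * (-1) ^ (m + 1) = 1 := by
    rw [← mul_pow]; norm_num
  have e2 : ((-1 : ℚ) ^ (m + 1)) ≠ 0 := pow_ne_zero _ (by norm_num)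
  rw [e, pow_succ (27 : ℚ) m]
  push_cast
  rw [mul_div_assoc', div_mul_eq_mul_div, div_eq_div_iff (by positivity)
    (mul_ne_zero e2 (by positivity))]
  linear_combination ((m + 1) * ((2 * (m + 1)).choose (m + 1) : ℚ) *
    (((2 * (m + 1)).choose (m + 1) : ℚ) * ((3 * m + 2).choose (m + 1 + (m + 1)) : ℚ)) * (27 ^ m * 27)) * e1

theorem wz (m : ℕ) : ∑ k ∈ range (m + 1), (15 * (k : ℚ) + 4) * tt k =
    K m * ∑ j ∈ range (m + 1), v m j := by
  induction m with
  | zero => simp [K, v, t, tt, Nat.centralBinom]; norm_num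
  | succ m ih =>
    rw [sum_range_succ, ih]
    have h := wz_sum m (m + 1) le_rfl
    rw [sum_sub_distrib, ← mul_sum, ← mul_sum] at h
    rw [sum_range_succ _ (m + 1)]
    have hd := diag m
    have h2 := v_m m (m + 1) le_rfl
    have h3 := K_succ m
    have q1 : (m : ℚ) + 1 ≠ 0 := by positivity
    have q2 : (m : ℚ) + 2 ≠ 0 := by positivity
    have q4 : (2 : ℚ) * m + 3 ≠ 0 := by positivity
    push_cast at h2 h
    have e5 : ((m : ℚ) + 2 + (m + 1)) * (2 * m + 3 - (m + 1)) * (2 * m + 2 - (m + 1)) =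
      (2 * m + 3) * (m + 2) * (m + 1) := by ring
    rw [e5] at h2
    have e2 : v (m + 1) (m + 1) = (3 * m + 5) * (3 * m + 4) * (3 * m + 3) * v m (m + 1) /
        ((2 * m + 3) * (m + 2) * (m + 1)) := by
      rw [eq_div_iff (by positivity)]; exact h2
    have e3 : K (m + 1) = 2 * (2 * m + 3) * K m / (27 * (m + 1)) := by
      rw [eq_div_iff (by positivity)]; exact h3
    have e6 : K (m + 1) * v (m + 1) (m + 1) * (m + 2) = 2 * (3 * m + 5) * (3 * m + 4) * tt (m + 1) := by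
      have : K (m + 1) * v (m + 1) (m + 1) * (m + 2) =
          2 * (3 * m + 5) * (3 * m + 4) / (9 * (m + 1)) * (K m * v m (m + 1)) := by
        rw [e2, e3]; field_simp; ring
      rw [this, hd]
      field_simp
    have e7 : F m (m + 1) * (m + 2) = -((m + 1) * (3 * m + 2)) * tt (m + 1) := by
      unfold F
      push_cast
      have e8 : (2 : ℚ) * m + 3 - (m + 1) = m + 2 := by ring
      have e9 : (2 : ℚ) * m + 2 - (m + 1) = m + 1 := by ring
      rw [e8, e9, hd]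
      field_simp
      ring
    apply mul_right_cancel₀ q2
    push_cast
    linear_combination (-(m : ℚ) - 2) * h - e6 - e7

/-- `U m = ∑_{j ≤ m} (-1)^(m-j) t m j` -/
def U (m : ℕ) : ℤ := ∑ j ∈ range (m + 1), (-1) ^ (m - j) * (t m j : ℤ)

lemma T_eq (m : ℕ) : (T (m + 1) : ℚ) = (m + 1) * (Nat.centralBinom (m + 1) : ℚ) * U m := by
  have h1 : (T (m + 1) : ℚ) = (-27) ^ m * ∑ k ∈ range (m + 1), (15 * (k : ℚ) + 4) * tt k := by
    unfold T
    push_cast
    rw [mul_sum]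
    apply sum_congr rfl
    intro k hk
    have hk' : k ≤ m := by have := mem_range.mp hk; omega
    have e : (-27 : ℚ) ^ m = (-27) ^ (m - k) * (-27) ^ k := by
      rw [← pow_add]; congr 1; omega
    have e5 : (-27 : ℚ) ^ k ≠ 0 := pow_ne_zero _ (by norm_num)
    rw [e]
    unfold tt
    field_simp
  have h2 : (U m : ℚ) = (-1) ^ m * ∑ j ∈ range (m + 1), v m j := by
    unfold U
    push_cast
    rw [mul_sum]
    apply sum_congr rfl
    intro j hj
    have hj' : j ≤ m := by have := mem_range.mp hj; omega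
    have e : (-1 : ℚ) ^ m = (-1) ^ (m - j) * (-1) ^ j := by
      rw [← pow_add]; congr 1; omega
    have e1 : ((-1 : ℚ) ^ j) * (-1) ^ j = 1 := by
      rw [← mul_pow]; norm_num
    unfold v
    rw [e]
    linear_combination (-((-1 : ℚ) ^ (m - j) * (t m j : ℚ))) * e1
  rw [h1, wz, h2]
  unfold K
  have e : (-27 : ℚ) ^ m = 27 ^ m * (-1) ^ m := by rw [← mul_pow]; norm_num
  rw [e]
  field_simp

lemma a_eq (m : ℕ) : a (m + 1) = (U m : ℚ) / (2 * (2 * m + 3)) := by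
  unfold a
  rw [T_eq, ← Nat.centralBinom_eq_two_mul_choose]
  have hc : (Nat.centralBinom (m + 1) : ℚ) ≠ 0 := by
    have := (Nat.centralBinom_pos (m + 1)).ne'
    exact_mod_cast this
  have q1 : (m : ℚ) + 1 ≠ 0 := by positivity
  have q4 : (2 : ℚ) * m + 3 ≠ 0 := by positivity
  push_cast
  have e : 2 * ((m : ℚ) + 1) + 1 = 2 * m + 3 := by ring
  rw [e]
  field_simp

/-! ## divisibility by `N = 2m+3` -/

/-- `C(3m+2, m+1) 3 = 2 C(3m+3, m+1)` -/
lemma start_dvd (m : ℕ) : (2 * m + 3) ∣ 3 * (3 * m + 2).choose (m + 1) := by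
  have h1 := Nat.choose_mul_succ_eq (3 * m + 2) (m + 1)
  have h2 := Nat.choose_succ_right_eq (3 * m + 3) (2 * m + 2)
  have e1 : 3 * m + 2 + 1 - (m + 1) = 2 * m + 2 := by omega
  have e2 : 3 * m + 3 - (2 * m + 2) = m + 1 := by omega
  have e3 : (3 * m + 2 + 1).choose (m + 1) = (3 * m + 3).choose (2 * m + 2) :=
    Nat.choose_symm_of_eq_add (by omega)
  rw [e1, e3] at h1
  rw [e2] at h2
  have h1' : (3 * m + 2).choose (m + 1) * (3 * m + 3) = (3 * m + 3).choose (2 * m + 2) * (2 * m + 2) := h1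
  have h2' : (3 * m + 3).choose (2 * m + 3) * (2 * m + 3) = (3 * m + 3).choose (2 * m + 2) * (m + 1) := h2
  have h3 : (m + 1) * (3 * (3 * m + 2).choose (m + 1)) = (2 * m + 3) * (2 * (3 * m + 3).choose (2 * m + 3)) := by
    calc (m + 1) * (3 * (3 * m + 2).choose (m + 1)) = (3 * m + 2).choose (m + 1) * (3 * m + 3) := by ring
      _ = 2 * ((3 * m + 3).choose (2 * m + 2) * (m + 1)) := by rw [h1']; ring
      _ = _ := by rw [← h2']; ring
  have c1 : Nat.Coprime (2 * m + 3) (m + 1) := by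
    have e : 2 * m + 3 = 1 + 2 * (m + 1) := by ring
    rw [e]
    simp
  exact c1.dvd_of_dvd_mul_left (Dvd.intro _ h3.symm)

/-- the integer `6 C(2j,j)/((j+1)(j+2))`: an integer `w` with `w (j+2) = 6 Cat(j)` -/
lemma six_cat (j : ℕ) : ∃ w : ℤ, w * (j + 2) = 6 * (catalan j : ℤ) := by
  -- `w = 4 * 3 Cat(j) - ...`: use `(j+2) Cat(j+1) = 2(2j+1) Cat(j)`, so `(j+2)(4 Cat(j) - Cat(j+1)) = 6 Cat(j)`
  refine ⟨4 * catalan j - catalan (j + 1), ?_⟩
  have h1 := succ_mul_catalan_eq_centralBinom j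
  have h2 := succ_mul_catalan_eq_centralBinom (j + 1)
  have h3 := Nat.succ_mul_centralBinom_succ j
  have h4 : (j + 1) * ((j + 2) * catalan (j + 1)) = (j + 1) * (2 * (2 * j + 1) * catalan j) := by
    have : (j + 2) * catalan (j + 1) = Nat.centralBinom (j + 1) := h2
    rw [this, h3, ← h1]
    ring
  have h5 : (j + 2) * catalan (j + 1) = 2 * (2 * j + 1) * catalan j :=
    Nat.eq_of_mul_eq_mul_left (Nat.succ_pos j) h4
  have h6 : ((j : ℤ) + 2) * catalan (j + 1) = 2 * (2 * j + 1) * catalan j := by exact_mod_cast h5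
  linear_combination (-1) * h6

lemma cat_succ (j : ℕ) : ((j : ℤ) + 2) * catalan (j + 1) = 2 * (2 * j + 1) * catalan j := by
  have h1 := succ_mul_catalan_eq_centralBinom j
  have h2 := succ_mul_catalan_eq_centralBinom (j + 1)
  have h3 := Nat.succ_mul_centralBinom_succ j
  have h4 : (j + 1) * ((j + 2) * catalan (j + 1)) = (j + 1) * (2 * (2 * j + 1) * catalan j) := by
    have : (j + 2) * catalan (j + 1) = Nat.centralBinom (j + 1) := h2
    rw [this, h3, ← h1]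
    ring
  have h5 : (j + 2) * catalan (j + 1) = 2 * (2 * j + 1) * catalan j :=
    Nat.eq_of_mul_eq_mul_left (Nat.succ_pos j) h4
  exact_mod_cast h5

lemma ch_int (m j : ℕ) (hj : j ≤ m) : ((3 * m + 2).choose (m + 1 + (j + 1)) : ℤ) * (m + 2 + j) =
    ((3 * m + 2).choose (m + 1 + j) : ℤ) * (2 * m + 1 - j) := by
  have h := ch_nat m j hj
  have h' := congrArg (Nat.cast : ℕ → ℤ) h
  have e : ((2 * m + 1 - j : ℕ) : ℤ) = 2 * m + 1 - j := by omega
  rw [Nat.cast_mul, Nat.cast_mul, e] at h'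
  push_cast at h'
  exact h'

/-- `N ∣ 3 Cat(j) C(3m+2, m+1+j)` -/
lemma dvd_r (m j : ℕ) (hj : j ≤ m) :
    (2 * (m : ℤ) + 3) ∣ 3 * ((catalan j : ℤ) * ((3 * m + 2).choose (m + 1 + j) : ℤ)) := by
  induction j with
  | zero =>
    have h := start_dvd m
    have h' : ((2 * m + 3 : ℕ) : ℤ) ∣ ((3 * (3 * m + 2).choose (m + 1) : ℕ) : ℤ) :=
      Int.natCast_dvd_natCast.mpr h
    push_cast at h'
    simpa using h'
  | succ j ih =>
    have ih' := ih (by omega)
    have h1 := ch_int m j (by omega)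
    have h2 := cat_succ j
    obtain ⟨w, hw⟩ := six_cat j
    -- `6 r_{j+1} = -24 r_j + N (...)`
    have key : 6 * ((catalan (j + 1) : ℤ) * ((3 * m + 2).choose (m + 1 + (j + 1)) : ℤ)) =
        (2 * (m : ℤ) + 3) * (w * (4 * ((3 * m + 2).choose (m + 1 + j) : ℤ) -
          2 * ((3 * m + 2).choose (m + 1 + (j + 1)) : ℤ))) -
        24 * ((catalan j : ℤ) * ((3 * m + 2).choose (m + 1 + j) : ℤ)) := by
      generalize ((3 * m + 2).choose (m + 1 + (j + 1)) : ℤ) = X at *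
      generalize ((3 * m + 2).choose (m + 1 + j) : ℤ) = Y at *
      have hj2 : ((j : ℤ) + 2) ≠ 0 := by positivity
      apply mul_left_cancel₀ hj2
      linear_combination (6 * X) * h2 + (24 * (catalan j : ℤ)) * h1 -
        (2 * (m : ℤ) + 3) * (4 * Y - 2 * X) * hw
    have h3 : (2 * (m : ℤ) + 3) ∣ 6 * ((catalan (j + 1) : ℤ) * ((3 * m + 2).choose (m + 1 + (j + 1)) : ℤ)) := by
      rw [key]
      apply dvd_sub (Dvd.intro _ rfl)
      have := ih'.mul_left 8
      have e : (24 : ℤ) * ((catalan j : ℤ) * ((3 * m + 2).choose (m + 1 + j) : ℤ)) =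
        8 * (3 * ((catalan j : ℤ) * ((3 * m + 2).choose (m + 1 + j) : ℤ))) := by ring
      rw [e]; exact this
    have e : (6 : ℤ) * ((catalan (j + 1) : ℤ) * ((3 * m + 2).choose (m + 1 + (j + 1)) : ℤ)) =
      2 * (3 * ((catalan (j + 1) : ℤ) * ((3 * m + 2).choose (m + 1 + (j + 1)) : ℤ))) := by ring
    rw [e] at h3
    have hcop : IsCoprime (2 * (m : ℤ) + 3) 2 := ⟨1, -(m + 1), by ring⟩
    exact hcop.dvd_of_dvd_mul_left h3

lemma dvd_three (m j : ℕ) (hj : j ≤ m) : (2 * (m : ℤ) + 3) ∣ 3 * (t m j : ℤ) := by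
  have h := (dvd_r m j hj).mul_left ((j : ℤ) + 1)
  have h1 : ((j : ℤ) + 1) * catalan j = Nat.centralBinom j := by
    exact_mod_cast succ_mul_catalan_eq_centralBinom j
  unfold t
  push_cast
  rw [← h1]
  have e : ((j : ℤ) + 1) * (3 * ((catalan j : ℤ) * ((3 * m + 2).choose (m + 1 + j) : ℤ))) =
    3 * (((j : ℤ) + 1) * catalan j * ((3 * m + 2).choose (m + 1 + j) : ℤ)) := by ring
  rw [← e]; exact h

lemma dvd_three_U (m : ℕ) : (2 * (m : ℤ) + 3) ∣ 3 * U m := by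
  unfold U
  rw [mul_sum]
  apply dvd_sum
  intro j hj
  have hj' : j ≤ m := by have := mem_range.mp hj; omega
  have e : 3 * ((-1) ^ (m - j) * (t m j : ℤ)) = (-1) ^ (m - j) * (3 * (t m j : ℤ)) := by ring
  rw [e]
  exact (dvd_three m j hj').mul_left _

lemma even_U (m : ℕ) : (2 : ℤ) ∣ U m := by
  unfold U
  apply dvd_sum
  intro j _
  apply Dvd.dvd.mul_left
  have h : 2 ∣ t m j := by
    unfold t
    rcases Nat.eq_zero_or_pos j with h | h
    · subst h
      apply Dvd.dvd.mul_left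
      have h1 := Nat.choose_succ_right_eq (3 * m + 2) m
      have e1 : 3 * m + 2 - m = 2 * (m + 1) := by omega
      rw [e1] at h1
      have h2 : (3 * m + 2).choose (m + 1) = 2 * (3 * m + 2).choose m := by
        have : (m + 1) * (3 * m + 2).choose (m + 1) = (m + 1) * (2 * (3 * m + 2).choose m) := by
          linarith
        exact Nat.eq_of_mul_eq_mul_left (Nat.succ_pos m) this
      rw [Nat.add_zero, h2]
      exact Dvd.intro _ rfl
    · apply Dvd.dvd.mul_right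
      exact Nat.two_dvd_centralBinom_of_one_le h
  exact_mod_cast h

/-- `(j+1) t (j+1) ≡ -4 (j+2) t j` modulo `N` -/
lemma rel (m j : ℕ) (hj : j ≤ m) :
    (2 * (m : ℤ) + 3) ∣ ((j : ℤ) + 1) * (t m (j + 1) : ℤ) + 4 * (j + 2) * (t m j : ℤ) := by
  have h1 := ch_int m j hj
  have h2 : ((j : ℤ) + 1) * (Nat.centralBinom (j + 1) : ℤ) = 2 * (2 * j + 1) * (Nat.centralBinom j : ℤ) := by
    exact_mod_cast Nat.succ_mul_centralBinom_succ j
  refine ⟨4 * (t m j : ℤ) - 2 * (Nat.centralBinom j : ℤ) * ((3 * m + 2).choose (m + 1 + (j + 1)) : ℤ), ?_⟩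
  unfold t
  push_cast
  generalize ((3 * m + 2).choose (m + 1 + (j + 1)) : ℤ) = X at *
  generalize ((3 * m + 2).choose (m + 1 + j) : ℤ) = Y at *
  linear_combination X * h2 + 4 * (Nat.centralBinom j : ℤ) * h1

lemma block1 (m i : ℕ) (hi : 3 * i ≤ m) :
    (2 * (m : ℤ) + 3) ∣ (t m (3 * i + 1) : ℤ) - (t m (3 * i) : ℤ) := by
  have h := rel m (3 * i) hi
  have h3 := (dvd_three m (3 * i) hi)
  rcases Nat.lt_or_ge m (3 * i + 1) with hlt | hge
  · -- `m = 3 i`: use the relation for `3 t (3i+1)` from `rel`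
    have e : m = 3 * i := by omega
    -- here `3 t (m+1)` : from `rel`, `(m+1) t(m+1) ≡ -4(m+2) t m`
    have hc : IsCoprime (2 * (m : ℤ) + 3) ((m : ℤ) + 1) := ⟨1, -2, by ring⟩
    have h4 : (2 * (m : ℤ) + 3) ∣ ((m : ℤ) + 1) * (3 * (t m (m + 1) : ℤ)) := by
      have h5 := (rel m m le_rfl).mul_left 3
      have h6 := (dvd_three m m le_rfl).mul_left (4 * ((m : ℤ) + 2))
      have h7 := dvd_sub h5 h6
      have e7 : 3 * (((m : ℤ) + 1) * (t m (m + 1) : ℤ) + 4 * (m + 2) * (t m m : ℤ)) -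
        4 * ((m : ℤ) + 2) * (3 * (t m m : ℤ)) = ((m : ℤ) + 1) * (3 * (t m (m + 1) : ℤ)) := by ring
      rw [e7] at h7
      exact h7
    have h5 := hc.dvd_of_dvd_mul_left h4
    rw [← e] at h h3 ⊢
    have hm : ((3 * i : ℕ) : ℤ) = (m : ℤ) := by rw [e]
    have h6 := dvd_sub h (h5.mul_left i)
    have h8 := dvd_sub h6 (h3.mul_left (4 * i + 3))
    have hmi : (m : ℤ) = 3 * i := by rw [← hm]; push_cast; ring
    have e8 : ((m : ℤ) + 1) * (t m (m + 1) : ℤ) + 4 * (m + 2) * (t m m : ℤ) - i * (3 * (t m (m + 1) : ℤ)) -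
        (4 * i + 3) * (3 * (t m m : ℤ)) = (t m (m + 1) : ℤ) - (t m m : ℤ) := by
      rw [hmi]; ring
    rw [e8] at h8
    exact h8
  · have h5 := dvd_three m (3 * i + 1) hge
    push_cast at h
    have h6 := dvd_sub h (h5.mul_left i)
    have h8 := dvd_sub h6 (h3.mul_left (4 * i + 3))
    have e8 : (3 * (i : ℤ) + 1) * (t m (3 * i + 1) : ℤ) + 4 * (3 * i + 2) * (t m (3 * i) : ℤ) -
        i * (3 * (t m (3 * i + 1) : ℤ)) - (4 * i + 3) * (3 * (t m (3 * i) : ℤ)) =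
        (t m (3 * i + 1) : ℤ) - (t m (3 * i) : ℤ) := by
      ring
    rw [e8] at h8
    exact h8

lemma block2 (m i : ℕ) (hi : 3 * i + 2 ≤ m) : (2 * (m : ℤ) + 3) ∣ (t m (3 * i + 2) : ℤ) := by
  have h := rel m (3 * i + 1) (by omega)
  have h3 := (dvd_three m (3 * i + 1) (by omega))
  have h5 := dvd_three m (3 * i + 2) hi
  push_cast at h
  -- `(3i+2) t(3i+2) + 4(3i+3) t(3i+1)`
  have h6 := dvd_sub h (h3.mul_left (4 * (i + 1)))
  have h7 := dvd_sub h6 (h5.mul_left i)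
  have e1 : 3 * i + 1 + 1 = 3 * i + 2 := by ring
  rw [e1] at h7
  have e8 : (3 * (i : ℤ) + 1 + 1) * (t m (3 * i + 2) : ℤ) + 4 * (3 * i + 1 + 2) * (t m (3 * i + 1) : ℤ) -
      4 * (i + 1) * (3 * (t m (3 * i + 1) : ℤ)) - i * (3 * (t m (3 * i + 2) : ℤ)) = 2 * (t m (3 * i + 2) : ℤ) := by
    ring
  rw [e8] at h7
  have hcop : IsCoprime (2 * (m : ℤ) + 3) 2 := ⟨1, -(m + 1), by ring⟩
  exact hcop.dvd_of_dvd_mul_left h7

/-- the alternating sum over complete blocks is divisible by `N` -/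
lemma blocks (m I : ℕ) (hI : 3 * I ≤ m) :
    (2 * (m : ℤ) + 3) ∣ ∑ j ∈ range (3 * I), (-1) ^ j * (t m j : ℤ) := by
  induction I with
  | zero => simp
  | succ I ih =>
    have e : 3 * (I + 1) = 3 * I + 1 + 1 + 1 := by ring
    rw [e, sum_range_succ, sum_range_succ, sum_range_succ]
    have h1 := ih (by omega)
    have h2 := (block1 m I (by omega)).mul_left ((-1) ^ (3 * I + 1))
    have h3 := (block2 m I (by omega)).mul_left ((-1) ^ (3 * I + 1 + 1))
    have h4 := dvd_add (dvd_add h1 h2) h3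
    have e2 : ∑ j ∈ range (3 * I), (-1) ^ j * (t m j : ℤ) + (-1) ^ (3 * I + 1) * ((t m (3 * I + 1) : ℤ) - (t m (3 * I) : ℤ)) +
        (-1) ^ (3 * I + 1 + 1) * (t m (3 * I + 2) : ℤ) =
        ∑ j ∈ range (3 * I), (-1) ^ j * (t m j : ℤ) + (-1) ^ (3 * I) * (t m (3 * I) : ℤ) +
        (-1) ^ (3 * I + 1) * (t m (3 * I + 1) : ℤ) + (-1) ^ (3 * I + 1 + 1) * (t m (3 * I + 1 + 1) : ℤ) := by
      rw [pow_succ ((-1 : ℤ)) (3 * I)]; ring
    rw [e2] at h4
    exact h4

lemma dvd_U_iff (m : ℕ) (h3 : 3 ∣ 2 * m + 3) : (2 * (m : ℤ) + 3) ∣ U m ↔ (2 * m + 3) ∣ t m m := by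
  obtain ⟨I, hI⟩ : ∃ I, m = 3 * I := by
    have : 3 ∣ m := by omega
    exact this
  have hU : (-1) ^ m * U m = ∑ j ∈ range (m + 1), (-1) ^ j * (t m j : ℤ) := by
    unfold U
    rw [mul_sum]
    apply sum_congr rfl
    intro j hj
    have hj' : j ≤ m := by have := mem_range.mp hj; omega
    have e : (-1 : ℤ) ^ m = (-1) ^ (m - j) * (-1) ^ j := by
      rw [← pow_add]; congr 1; omega
    have e1 : ((-1 : ℤ) ^ (m - j)) * (-1) ^ (m - j) = 1 := by
      rw [← mul_pow]; norm_num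
    rw [e]
    linear_combination ((-1 : ℤ) ^ j * (t m j : ℤ)) * e1
  rw [sum_range_succ] at hU
  have hb := blocks m I (by omega)
  rw [← hI] at hb
  have hs : (-1 : ℤ) ^ m * (-1) ^ m = 1 := by rw [← mul_pow]; norm_num
  have h1 : (2 * (m : ℤ) + 3) ∣ U m ↔ (2 * (m : ℤ) + 3) ∣ (t m m : ℤ) := by
    constructor
    · intro h
      have h4 := h.mul_left ((-1) ^ m)
      rw [hU] at h4
      have h5 := (dvd_add_right hb).mp h4
      have h6 := h5.mul_left ((-1) ^ m)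
      rw [← mul_assoc, hs, one_mul] at h6
      exact h6
    · intro h
      have h4 := dvd_add hb (h.mul_left ((-1) ^ m))
      rw [← hU] at h4
      have h6 := h4.mul_left ((-1) ^ m)
      rw [← mul_assoc, hs, one_mul] at h6
      exact h6
  rw [h1]
  constructor
  · intro h
    exact_mod_cast h
  · intro h
    exact_mod_cast h

/-! ## the `3`-adic valuation of the last term -/

/-- the set of carries when `x` and `y` are added in base `3` -/
def carries (b x y : ℕ) : Finset ℕ := (Finset.Ico 1 b).filter (fun i => 3 ^ i ≤ x % 3 ^ i + y % 3 ^ i)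

lemma val_choose (b x y : ℕ) (hb : Nat.log 3 (y + x) < b) :
    padicValNat 3 ((y + x).choose x) = (carries b x y).card := by
  have : Fact (Nat.Prime 3) := ⟨Nat.prime_three⟩
  have h := padicValNat_choose' (p := 3) (n := y) (k := x) hb
  rw [h]
  rfl

lemma t_diag (m : ℕ) : t m m = (m + m).choose m * ((2 * m + 1) + (m + 1)).choose (m + 1) := by
  unfold t
  rw [Nat.centralBinom_eq_two_mul_choose]
  have e : 2 * m = m + m := by ring
  have e2 : (3 * m + 2).choose (m + 1 + m) = ((2 * m + 1) + (m + 1)).choose (m + 1) := by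
    have e3 : 2 * m + 1 + (m + 1) = 3 * m + 2 := by ring
    rw [e3]
    exact Nat.choose_symm_of_eq_add (by omega)
  rw [e2, e]

lemma t_pos (m : ℕ) : t m m ≠ 0 := by
  rw [t_diag]
  exact mul_ne_zero (Nat.choose_pos (by omega)).ne' (Nat.choose_pos (by omega)).ne'

lemma val_t (b m : ℕ) (hb : Nat.log 3 (3 * m + 2) < b) :
    padicValNat 3 (t m m) = (carries b m m).card + (carries b (m + 1) (2 * m + 1)).card := by
  have : Fact (Nat.Prime 3) := ⟨Nat.prime_three⟩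
  rw [t_diag, padicValNat.mul (Nat.choose_pos (by omega)).ne' (Nat.choose_pos (by omega)).ne']
  rw [val_choose b m m, val_choose b (m + 1) (2 * m + 1)]
  · have e : 2 * m + 1 + (m + 1) = 3 * m + 2 := by ring
    rw [e]; exact hb
  · exact lt_of_le_of_lt (Nat.log_mono_right (by omega)) hb

lemma dvd_iff (a m : ℕ) : 3 ^ a ∣ t m m ↔ a ≤ padicValNat 3 (t m m) := by
  have : Fact (Nat.Prime 3) := ⟨Nat.prime_three⟩
  exact padicValNat_dvd_iff_le (t_pos m)

/-- the power of three case -/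
lemma pow_case (a m : ℕ) (ha : 1 ≤ a) (h : 2 * m + 3 = 3 ^ a) : ¬ 3 ^ a ∣ t m m := by
  rw [dvd_iff, val_t (Nat.log 3 (3 * m + 2) + 1) m (by omega)]
  set b := Nat.log 3 (3 * m + 2) + 1
  have h1 : (carries b m m) = ∅ := by
    apply Finset.filter_eq_empty_iff.mpr
    intro i hi hc
    have hi1 : 1 ≤ i := (Finset.mem_Ico.mp hi).1
    have hle : m % 3 ^ i ≤ m := Nat.mod_le _ _
    have hia : i ≤ a := by
      by_contra hcon
      have : 3 ^ a ≤ 3 ^ i := Nat.pow_le_pow_right (by norm_num) (by omega)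
      omega
    obtain ⟨c, hcc⟩ := Nat.pow_dvd_pow 3 hia
    have hmod := Nat.div_add_mod m (3 ^ i)
    have hlt : m % 3 ^ i < 3 ^ i := Nat.mod_lt _ (by positivity)
    have h3i : 3 ≤ 3 ^ i := by
      calc 3 = 3 ^ 1 := by norm_num
        _ ≤ 3 ^ i := Nat.pow_le_pow_right (by norm_num) hi1
    have hodd : Odd (3 ^ i) := Odd.pow (by decide)
    -- 3^i divides 2 (m % 3^i) + 3
    have hd : 3 ^ i ∣ 2 * (m % 3 ^ i) + 3 := by
      have h5 : 2 * (m % 3 ^ i) + 3 + 3 ^ i * (2 * (m / 3 ^ i)) = 3 ^ i * c := by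
        rw [← hcc, ← h]
        nlinarith [hmod]
      have h6 : 3 ^ i ∣ 2 * (m % 3 ^ i) + 3 + 3 ^ i * (2 * (m / 3 ^ i)) := by
        rw [h5]; exact Dvd.intro _ rfl
      exact (Nat.dvd_add_left (Dvd.intro _ rfl)).mp h6
    obtain ⟨e, he⟩ := hd
    generalize 3 ^ i = q at *
    generalize m % q = r at *
    have he1 : e = 2 := by
      have hlo : q * 1 < q * e := by omega
      have hhi : q * e < q * 3 := by omega
      have h7 : 1 < e := Nat.lt_of_mul_lt_mul_left hlo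
      have h8 : e < 3 := Nat.lt_of_mul_lt_mul_left hhi
      omega
    subst he1
    omega
  have h2 : (carries b (m + 1) (2 * m + 1)) ⊆ Finset.Icc 2 a := by
    intro i hi
    rw [carries, Finset.mem_filter] at hi
    obtain ⟨hi, hc⟩ := hi
    have hi1 : 1 ≤ i := (Finset.mem_Ico.mp hi).1
    have hle : (2 * m + 1) % 3 ^ i ≤ 2 * m + 1 := Nat.mod_le _ _
    have hle2 : (m + 1) % 3 ^ i ≤ m + 1 := Nat.mod_le _ _
    rw [Finset.mem_Icc]
    constructor
    · by_contra hcon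
      have : i = 1 := by omega
      subst this
      obtain ⟨c, hcc⟩ : 3 ∣ 3 ^ a := dvd_pow_self 3 (by omega)
      omega
    · by_contra hcon
      have h4 : 3 ^ (a + 1) ≤ 3 ^ i := Nat.pow_le_pow_right (by norm_num) (by omega)
      rw [pow_succ] at h4
      omega
  have h3 := Finset.card_le_card h2
  rw [h1]
  simp only [Finset.card_empty, Nat.card_Icc] at h3 ⊢
  omega

/-- the other case -/
lemma other_case (a q m : ℕ) (ha : 1 ≤ a) (h : 2 * m + 3 = 3 ^ a * q) (hq : ¬ 3 ∣ q) (hq1 : q ≠ 1) :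
    3 ^ a ∣ t m m := by
  rw [dvd_iff, val_t (Nat.log 3 (3 * m + 2) + 1) m (by omega)]
  set b := Nat.log 3 (3 * m + 2) + 1 with hbdef
  have hb : ∀ i, 3 ^ i ≤ 3 * m + 2 → i < b := by
    intro i hi
    have := Nat.le_log_of_pow_le (by norm_num) hi
    omega
  obtain ⟨r, hr⟩ : ∃ r, q = 2 * r + 1 := by
    have hodd : Odd (3 ^ a * q) := ⟨m + 1, by omega⟩
    have := (Nat.odd_mul.mp hodd).2
    obtain ⟨r, hr⟩ := this
    exact ⟨r, hr⟩
  have hr0 : 1 ≤ r := by omega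
  have h3a : 3 ≤ 3 ^ a := by
    calc 3 = 3 ^ 1 := by norm_num
      _ ≤ 3 ^ a := Nat.pow_le_pow_right (by norm_num) ha
  have hodda : Odd (3 ^ a) := Odd.pow (by decide)
  obtain ⟨s, hs⟩ := hodda
  -- `m = 3 ^ a r + (3 ^ a - 3) / 2`
  have hm : m = 3 ^ a * r + (s - 1) := by
    rw [hr, Nat.mul_add, Nat.mul_one, ← Nat.mul_assoc, Nat.mul_comm (3 ^ a) 2, Nat.mul_assoc] at h
    omega
  -- carries from `2` to `a`
  have hsub : Finset.Icc 2 a ⊆ (carries b (m + 1) (2 * m + 1)) := by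
    intro i hi
    obtain ⟨hi2, hia⟩ := Finset.mem_Icc.mp hi
    have h9 : 9 ≤ 3 ^ i := by
      calc 9 = 3 ^ 2 := by norm_num
        _ ≤ 3 ^ i := Nat.pow_le_pow_right (by norm_num) hi2
    have hoddi : Odd (3 ^ i) := Odd.pow (by decide)
    obtain ⟨s', hs'⟩ := hoddi
    obtain ⟨c, hc⟩ := Nat.pow_dvd_pow 3 hia
    have h6 : 2 * m + 3 = 3 ^ i * (c * q) := by rw [h, hc]; ring
    obtain ⟨d, hd⟩ : ∃ d, c * q = 2 * d + 1 := by
      have hodd : Odd (3 ^ i * (c * q)) := ⟨m + 1, by omega⟩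
      exact (Nat.odd_mul.mp hodd).2
    rw [hd, Nat.mul_add, Nat.mul_one] at h6
    have h6' : 2 * m + 3 = 2 * (3 ^ i * d) + 3 ^ i := by
      rw [h6]; ring
    have hmod : (2 * m + 1) % 3 ^ i = 3 ^ i - 2 := by
      have h5 : 2 * m + 1 = 3 ^ i * (2 * d) + (3 ^ i - 2) := by
        omega
      rw [h5, Nat.mul_add_mod, Nat.mod_eq_of_lt (by omega)]
    have hmod2 : (m + 1) % 3 ^ i = s' := by
      have h5 : m + 1 = 3 ^ i * d + s' := by
        omega
      rw [h5, Nat.mul_add_mod, Nat.mod_eq_of_lt (by omega)]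
    rw [carries, Finset.mem_filter, Finset.mem_Ico]
    refine ⟨⟨by omega, ?_⟩, ?_⟩
    · apply hb
      have hle : 3 ^ i ≤ 3 ^ a := Nat.pow_le_pow_right (by norm_num) hia
      have : 3 ^ a * 1 ≤ 3 ^ a * r := Nat.mul_le_mul_left _ hr0
      omega
    · rw [hmod, hmod2]; omega
  -- an additional carry
  by_cases hcar : ∃ i, 1 ≤ i ∧ 3 ^ i ≤ r % 3 ^ i + r % 3 ^ i
  · obtain ⟨i, hi1, hi⟩ := hcar
    have hmem : a + i ∈ carries b m m := by
      have hmod : m % 3 ^ (a + i) = 3 ^ a * (r % 3 ^ i) + (s - 1) := by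
        have hdm := Nat.div_add_mod r (3 ^ i)
        have hlt : r % 3 ^ i < 3 ^ i := Nat.mod_lt _ (by positivity)
        have h5 : m = 3 ^ (a + i) * (r / 3 ^ i) + (3 ^ a * (r % 3 ^ i) + (s - 1)) := by
          rw [hm]
          conv_lhs => rw [← hdm]
          rw [pow_add]; ring
        have h6 : 3 ^ a * (r % 3 ^ i) + (s - 1) < 3 ^ (a + i) := by
          rw [pow_add]
          have : 3 ^ a * (r % 3 ^ i + 1) ≤ 3 ^ a * 3 ^ i := Nat.mul_le_mul_left _ hlt
          rw [Nat.mul_add, Nat.mul_one] at this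
          omega
        conv_lhs => rw [h5]
        rw [Nat.mul_add_mod, Nat.mod_eq_of_lt h6]
      have hge : 3 ^ (a + i) ≤ m % 3 ^ (a + i) + m % 3 ^ (a + i) := by
        rw [hmod, pow_add]
        have : 3 ^ a * 3 ^ i ≤ 3 ^ a * (r % 3 ^ i + r % 3 ^ i) := Nat.mul_le_mul_left _ hi
        rw [Nat.mul_add] at this
        omega
      rw [carries, Finset.mem_filter, Finset.mem_Ico]
      refine ⟨⟨by omega, ?_⟩, hge⟩
      apply hb
      have : m % 3 ^ (a + i) ≤ m := Nat.mod_le _ _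
      omega
    have h1 := Finset.card_le_card hsub
    have h2 : 0 < (carries b m m).card := Finset.card_pos.mpr ⟨_, hmem⟩
    rw [Nat.card_Icc] at h1
    omega
  · have hno : ∀ i, 1 ≤ i → r % 3 ^ i + r % 3 ^ i < 3 ^ i := by
      intro i hi
      by_contra hcon
      exact hcar ⟨i, hi, by omega⟩
    -- the number of digits of `r`
    set i := Nat.log 3 r + 1 with hidef
    have hlo : 3 ^ (i - 1) ≤ r := by
      have e : i - 1 = Nat.log 3 r := by omega
      rw [e]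
      exact Nat.pow_log_le_self 3 (by omega)
    have hhi : r < 3 ^ i := Nat.lt_pow_succ_log_self (by norm_num) r
    have h2r := hno i (by omega)
    rw [Nat.mod_eq_of_lt hhi] at h2r
    obtain ⟨l, hl⟩ : ∃ l, i = l + 1 := ⟨i - 1, by omega⟩
    have e1 : i - 1 = l := by omega
    rw [e1] at hlo
    have e2 : 3 ^ i = 3 * 3 ^ l := by rw [hl, pow_succ]; ring
    have hqne : q ≠ 3 ^ i := by
      intro hcon
      apply hq
      rw [hcon]
      exact dvd_pow_self 3 (by omega)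
    have hqlt : q < 3 ^ i := by omega
    have hmem : a + i ∈ carries b (m + 1) (2 * m + 1) := by
      have hlt : 2 * m + 1 < 3 ^ (a + i) := by
        rw [pow_add]
        have : 3 ^ a * q ≤ 3 ^ a * 3 ^ i := Nat.mul_le_mul_left _ hqlt.le
        omega
      have hlt2 : m + 1 < 3 ^ (a + i) := by
        rcases Nat.eq_zero_or_pos m with h0 | h0
        · subst h0
          have : 3 ^ 1 ≤ 3 ^ (a + i) := Nat.pow_le_pow_right (by norm_num) (by omega)
          omega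
        · omega
      have hge : 3 ^ (a + i) ≤ m + 1 + (2 * m + 1) := by
        rw [pow_add]
        have h5 : 3 ^ i ≤ 3 * r := by omega
        have h6 : 3 ^ a * 3 ^ i ≤ 3 ^ a * (3 * r) := Nat.mul_le_mul_left _ h5
        have h7 : 3 ^ a * (3 * r) = 3 * (3 ^ a * r) := by ring
        omega
      rw [carries, Finset.mem_filter, Finset.mem_Ico]
      refine ⟨⟨by omega, ?_⟩, ?_⟩
      · apply hb
        omega
      · rw [Nat.mod_eq_of_lt hlt, Nat.mod_eq_of_lt hlt2]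
        exact hge
    have hnot : a + i ∉ Finset.Icc 2 a := by
      rw [Finset.mem_Icc]; omega
    have h1 := Finset.card_le_card (Finset.insert_subset hmem hsub)
    rw [Finset.card_insert_of_notMem hnot, Nat.card_Icc] at h1
    omega

/-! ## the result -/

lemma final_aux (m : ℕ) (h : (2 * (m : ℤ) + 3) ∣ U m) : ∃ z : ℤ, a (m + 1) = (z : ℚ) := by
  have hcop : IsCoprime (2 : ℤ) (2 * (m : ℤ) + 3) := ⟨-(m + 1), 1, by ring⟩
  obtain ⟨w, hw⟩ := hcop.mul_dvd (even_U m) h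
  refine ⟨w, ?_⟩
  rw [a_eq, hw]
  have q4 : (2 : ℚ) * m + 3 ≠ 0 := by positivity
  push_cast
  field_simp

/-- **Full answer to Q2.** For every positive integer `n`: if `2n+1` is not a power of `3`, then `a_n`
is an integer; if `2n+1` is a power of `3`, then `3 a_n` is an integer not divisible by `3`. -/
theorem result (n : ℕ) (hn : 1 ≤ n) :
    ((∀ k : ℕ, 2 * n + 1 ≠ 3 ^ k) → ∃ z : ℤ, a n = (z : ℚ)) ∧
    ((∃ k : ℕ, 2 * n + 1 = 3 ^ k) → ∃ z : ℤ, 3 * a n = (z : ℚ) ∧ ¬ (3 : ℤ) ∣ z) := by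
  obtain ⟨m, rfl⟩ : ∃ m, n = m + 1 := ⟨n - 1, by omega⟩
  have eN : 2 * (m + 1) + 1 = 2 * m + 3 := by ring
  rw [eN]
  constructor
  · intro hpow
    apply final_aux
    by_cases h3 : 3 ∣ 2 * m + 3
    · rw [dvd_U_iff m h3]
      obtain ⟨a, q, hq, hN⟩ := Nat.exists_eq_pow_mul_and_not_dvd (n := 2 * m + 3) (by omega) 3 (by norm_num)
      have ha : 1 ≤ a := by
        rcases Nat.eq_zero_or_pos a with h | h
        · subst h
          rw [pow_zero, one_mul] at hN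
          rw [hN] at h3
          exact absurd h3 hq
        · exact h
      have hq1 : q ≠ 1 := by
        intro h
        subst h
        rw [mul_one] at hN
        exact hpow a hN
      have h1 := other_case a q m ha hN hq hq1
      have h2 : q ∣ t m m := by
        have h4 : (2 * m + 3) ∣ 3 * t m m := by
          have := dvd_three m m le_rfl
          exact_mod_cast this
        have h5 : q ∣ 3 * t m m := (Dvd.intro_left (3 ^ a) hN.symm).trans h4
        have hc : Nat.Coprime q 3 := ((Nat.Prime.coprime_iff_not_dvd Nat.prime_three).mpr hq).symm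
        exact hc.dvd_of_dvd_mul_left h5
      rw [hN]
      have hc : Nat.Coprime (3 ^ a) q := ((Nat.Prime.coprime_iff_not_dvd Nat.prime_three).mpr hq).pow_left a
      exact hc.mul_dvd_of_dvd_of_dvd h1 h2
    · have hc : IsCoprime (2 * (m : ℤ) + 3) 3 := by
        have h4 : Nat.Coprime (2 * m + 3) 3 := ((Nat.Prime.coprime_iff_not_dvd Nat.prime_three).mpr h3).symm
        have h5 := Nat.isCoprime_iff_coprime.mpr h4
        exact_mod_cast h5
      exact hc.dvd_of_dvd_mul_left (dvd_three_U m)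
  · rintro ⟨k, hk⟩
    have hk1 : 1 ≤ k := by
      rcases Nat.eq_zero_or_pos k with h | h
      · subst h; omega
      · exact h
    have h3 : 3 ∣ 2 * m + 3 := by
      rw [hk]; exact dvd_pow_self 3 (by omega)
    have hcop : IsCoprime (2 : ℤ) (2 * (m : ℤ) + 3) := ⟨-(m + 1), 1, by ring⟩
    have he : (2 : ℤ) ∣ 3 * U m := (even_U m).mul_left 3
    obtain ⟨w, hw⟩ := hcop.mul_dvd he (dvd_three_U m)
    refine ⟨w, ?_, ?_⟩
    · rw [a_eq]
      have q4 : (2 : ℚ) * m + 3 ≠ 0 := by positivity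
      have hw' : 3 * (U m : ℚ) = 2 * (2 * m + 3) * w := by exact_mod_cast hw
      rw [← mul_div_assoc, hw']
      field_simp
    · intro hd
      obtain ⟨y, hy⟩ := hd
      have h4 : U m = (2 * (m : ℤ) + 3) * (2 * y) := by
        rw [hy] at hw
        have : 3 * U m = 3 * ((2 * (m : ℤ) + 3) * (2 * y)) := by rw [hw]; ring
        linarith
      have h5 : (2 * (m : ℤ) + 3) ∣ U m := Dvd.intro _ h4.symm
      rw [dvd_U_iff m h3, hk] at h5
      exact pow_case k m hk1 hk h5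

end Pool.Agent.Results.MP_ccf7f2_nt.Integrality
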